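import Pool.Agent.Helper712_LP.Stmts2

/-!
# Room below an intensity above the vacancy threshold
-/

set_option autoImplicit false

namespace Pool.Agent.Helper209_LP

open MeasureTheory ProbabilityTheory Set Filter Topology
open scoped ENNReal NNReal Pointwise

open Pool.Agent.Helper712_LP

/-- Scaling of the vacant region. -/
theorem vacant_smul {d : ℕ} (closed : Bool) (r : ℝ) {b : ℝ} (hb : 0 < b) (y : ℕ → E d) :
    vacant closed r (fun i => b • y i) =
      (Homeomorph.smulOfNeZero b hb.ne' : E d ≃ₜ E d) '' vacant closed (b⁻¹ * r) y := by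
  ext z
  have hz : b • (b⁻¹ • z) = z := smul_inv_smul₀ hb.ne' z
  have key : ∀ i, z ∈ nodeBall closed (b • y i) r ↔ b⁻¹ • z ∈ nodeBall closed (y i) (b⁻¹ * r) := by
    intro i
    have hd : dist z (b • y i) = b * dist (b⁻¹ • z) (y i) := by
      conv_lhs => rw [← hz]
      rw [dist_smul₀, Real.norm_of_nonneg hb.le]
    unfold nodeBall
    cases closed
    · simp only [Bool.false_eq_true, if_false, Metric.mem_ball, hd]
      rw [lt_inv_mul_iff₀ hb]
    · simp only [if_true, Metric.mem_closedBall, hd]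
      rw [le_inv_mul_iff₀ hb]
  constructor
  · intro h
    refine ⟨b⁻¹ • z, ?_, hz⟩
    intro h'
    apply h
    obtain ⟨i, hi⟩ := mem_iUnion.1 h'
    exact mem_iUnion.2 ⟨i, (key i).2 hi⟩
  · rintro ⟨w, hw, rfl⟩ h'
    apply hw
    obtain ⟨i, hi⟩ := mem_iUnion.1 h'
    refine mem_iUnion.2 ⟨i, ?_⟩
    have := (key i).1 hi
    have e : b⁻¹ • ((Homeomorph.smulOfNeZero b hb.ne' : E d ≃ₜ E d) w) = w :=
      inv_smul_smul₀ hb.ne' w
    rwa [e] at this

theorem hasUnbounded_smul {d : ℕ} {b : ℝ} (hb : 0 < b) {V : Set (E d)}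
    (h : HasUnboundedComponent V) :
    HasUnboundedComponent ((Homeomorph.smulOfNeZero b hb.ne' : E d ≃ₜ E d) '' V) := by
  obtain ⟨z, hz, hC⟩ := h
  refine ⟨Homeomorph.smulOfNeZero b hb.ne' z, mem_image_of_mem _ hz, ?_⟩
  rw [← Homeomorph.image_connectedComponentIn _ hz]
  intro hbd
  apply hC
  have := hbd.smul₀ b⁻¹
  refine this.subset ?_
  intro w hw
  refine ⟨Homeomorph.smulOfNeZero b hb.ne' w, mem_image_of_mem _ hw, ?_⟩
  exact inv_smul_smul₀ hb.ne' w

theorem critScale : S_scale → S_critScale := by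
  intro hscale d hd closed r hr lam hlam
  obtain ⟨l1, h1, h2⟩ := exists_between hlam
  have hl1top : l1 ≠ ∞ := (h2.trans ENNReal.coe_lt_top).ne
  obtain ⟨lam1, rfl⟩ : ∃ lam1 : ℝ≥0, (lam1 : ℝ≥0∞) = l1 := ⟨l1.toNNReal, ENNReal.coe_toNNReal hl1top⟩
  have h2' : lam1 < lam := by exact_mod_cast h2
  have hlam1 : 0 < lam1 := by
    have : (0 : ℝ≥0∞) < lam1 := bot_le.trans_lt h1
    exact_mod_cast this
  have hnp : ¬ Percolates closed d r lam1 := by
    intro hp
    have : (lam1 : ℝ≥0∞) ≤ lamCrit closed d r := le_sSup ⟨lam1, rfl, hp⟩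
    exact absurd h1 (not_lt.2 this)
  -- choose a
  have hlim : Tendsto (fun a : ℝ≥0 => lam1 / a ^ d) (𝓝[<] 1) (𝓝 lam1) := by
    have : Tendsto (fun a : ℝ≥0 => lam1 / a ^ d) (𝓝 1) (𝓝 (lam1 / 1 ^ d)) := by
      refine Tendsto.div tendsto_const_nhds ((continuous_pow d).tendsto 1) ?_
      simp
    simp only [one_pow, div_one] at this
    exact this.mono_left nhdsWithin_le_nhds
  have hev : ∀ᶠ a : ℝ≥0 in 𝓝[<] 1, lam1 / a ^ d < lam := hlim.eventually (gt_mem_nhds h2')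
  have hev2 : ∀ᶠ a : ℝ≥0 in 𝓝[<] 1, (1 / 2 : ℝ≥0) < a := by
    have : ∀ᶠ a : ℝ≥0 in 𝓝 1, (1 / 2 : ℝ≥0) < a := lt_mem_nhds (by
      rw [← NNReal.coe_lt_coe]; push_cast; norm_num)
    exact nhdsWithin_le_nhds this
  have hne : (𝓝[<] (1 : ℝ≥0)).NeBot := by
    apply nhdsLT_neBot_of_exists_lt
    exact ⟨0, by positivity⟩
  obtain ⟨a, ⟨ha1, ha2⟩, ha3⟩ := ((hev.and hev2).and self_mem_nhdsWithin).exists
  have ha0 : 0 < a := lt_trans (by positivity) ha2
  have ha3' : a < 1 := ha3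
  have had : 0 < a ^ d := pow_pos ha0 d
  refine ⟨lam1 / a ^ d, (a : ℝ) * r, by positivity, ha1, by positivity, ?_, ?_⟩
  · have : (a : ℝ) < 1 := by exact_mod_cast ha3'
    nlinarith
  · rintro ⟨Ω, mΩ, P, hP, x, hx, hpos⟩
    apply hnp
    have hb : 0 < a⁻¹ := by positivity
    have hs := hscale d Ω P (lam1 / a ^ d) x hx a⁻¹ hb
    have e : lam1 / a ^ d / a⁻¹ ^ d = lam1 := by
      rw [inv_pow]
      field_simp
    rw [e] at hs
    refine ⟨Ω, mΩ, P, hP, _, hs, hpos.trans_le (measure_mono ?_)⟩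
    intro ω hω
    have hb' : (0 : ℝ) < ((a⁻¹ : ℝ≥0) : ℝ) := by exact_mod_cast hb
    have hv := vacant_smul closed r hb' (fun i => x i ω)
    have e2 : (((a⁻¹ : ℝ≥0) : ℝ))⁻¹ * r = (a : ℝ) * r := by
      push_cast; rw [inv_inv]
    rw [e2] at hv
    show HasUnboundedComponent _
    rw [hv]
    exact hasUnbounded_smul hb' hω

end Pool.Agent.Helper209_LP
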