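import Pool.Agent.Helper712_LP.Stmts

/-!
# The calculus lemma behind sharpness (Duminil-Copin, Raoufi, Tassion)
-/

set_option autoImplicit false

namespace Pool.Agent.Helper209_LP

open MeasureTheory ProbabilityTheory Set Filter Topology
open scoped ENNReal NNReal

/-- Gronwall type lemma: if `K f ≤ f'` on `[u, v]` then `f u ≤ f v * exp (-K (v-u))`. -/
theorem gron {f f' : ℝ → ℝ} {u v K : ℝ} (huv : u ≤ v)
    (hd : ∀ y ∈ Icc u v, HasDerivAt f (f' y) y)
    (hK : ∀ y ∈ Icc u v, K * f y ≤ f' y) :
    f u ≤ f v * Real.exp (-(K * (v - u))) := by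
  have hmono : MonotoneOn (fun y => f y * Real.exp (-(K * y))) (Icc u v) := by
    have hder : ∀ y ∈ Icc u v, HasDerivAt (fun y => f y * Real.exp (-(K * y)))
        (f' y * Real.exp (-(K * y)) + f y * (Real.exp (-(K * y)) * (-(K * 1)))) y := by
      intro y hy
      exact (hd y hy).mul ((((hasDerivAt_id y).const_mul K).neg).exp)
    apply monotoneOn_of_hasDerivWithinAt_nonneg (convex_Icc u v)
      (f' := fun y => f' y * Real.exp (-(K * y)) + f y * (Real.exp (-(K * y)) * (-(K * 1))))
    · intro y hy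
      exact (hder y hy).continuousAt.continuousWithinAt
    · intro y hy
      exact (hder y (interior_subset hy)).hasDerivWithinAt
    · intro y hy
      have h1 := hK y (interior_subset hy)
      have h2 := Real.exp_pos (-(K * y))
      have : f' y * Real.exp (-(K * y)) + f y * (Real.exp (-(K * y)) * (-(K * 1)))
          = (f' y - K * f y) * Real.exp (-(K * y)) := by ring
      rw [this]
      exact mul_nonneg (by linarith) h2.le
  have h := hmono (left_mem_Icc.2 huv) (right_mem_Icc.2 huv) huv
  simp only at h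
  have e1 : Real.exp (-(K * (v - u))) = Real.exp (-(K * v)) * Real.exp (K * u) := by
    rw [← Real.exp_add]; ring_nf
  have e2 : Real.exp (-(K * u)) * Real.exp (K * u) = 1 := by
    rw [← Real.exp_add]; simp
  calc f u = f u * Real.exp (-(K * u)) * Real.exp (K * u) := by rw [mul_assoc, e2, mul_one]
    _ ≤ f v * Real.exp (-(K * v)) * Real.exp (K * u) :=
        mul_le_mul_of_nonneg_right h (Real.exp_pos _).le
    _ = f v * Real.exp (-(K * (v - u))) := by rw [e1]; ring

/-- Mean value inequality with a constant lower bound for the derivative. -/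
theorem mvi {f f' : ℝ → ℝ} {u v D : ℝ} (huv : u ≤ v)
    (hd : ∀ y ∈ Icc u v, HasDerivAt f (f' y) y)
    (hD : ∀ y ∈ Icc u v, D ≤ f' y) :
    D * (v - u) ≤ f v - f u := by
  have hmono : MonotoneOn (fun y => f y - D * y) (Icc u v) := by
    have hder : ∀ y ∈ Icc u v, HasDerivAt (fun y => f y - D * y) (f' y - D * 1) y := by
      intro y hy
      exact (hd y hy).sub ((hasDerivAt_id y).const_mul D)
    apply monotoneOn_of_hasDerivWithinAt_nonneg (convex_Icc u v)
      (f' := fun y => f' y - D * 1)
    · intro y hy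
      exact (hder y hy).continuousAt.continuousWithinAt
    · intro y hy
      exact (hder y (interior_subset hy)).hasDerivWithinAt
    · intro y hy
      have h1 := hD y (interior_subset hy)
      linarith
  have h := hmono (left_mem_Icc.2 huv) (right_mem_Icc.2 huv) huv
  simp only at h
  linarith

/-- `log (S + t) - log S ≤ t / S`. -/
theorem log_step {S t : ℝ} (hS : 0 < S) (ht : 0 ≤ t) :
    Real.log (S + t) - Real.log S ≤ t / S := by
  rw [← Real.log_div (by linarith) hS.ne']
  have h1 : 0 < (S + t) / S := by positivity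
  have := Real.log_le_sub_one_of_pos h1
  have h2 : (S + t) / S - 1 = t / S := by field_simp; ring
  linarith

/-- Weighted Cesàro averages. -/
theorem cesaro {u : ℕ → ℝ} (hu : Tendsto u atTop (𝓝 0)) {ε : ℝ} (hε : 0 < ε) :
    ∀ᶠ n : ℕ in atTop, ∑ i ∈ Finset.range n, u (i + 1) / (i + 1) ≤ ε * (1 + Real.log n) := by
  have hg : Tendsto (fun n : ℕ => ∑ i ∈ Finset.range n, (1 : ℝ) / (i + 1)) atTop atTop :=
    Real.tendsto_sum_range_one_div_nat_succ_atTop
  have ho : (fun i : ℕ => u (i + 1) / ((i : ℝ) + 1)) =o[atTop] (fun i : ℕ => (1 : ℝ) / (i + 1)) := by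
    have h1 : (fun i : ℕ => u (i + 1)) =o[atTop] (fun _ : ℕ => (1 : ℝ)) := by
      rw [Asymptotics.isLittleO_one_iff]
      exact hu.comp (tendsto_add_atTop_nat 1)
    have h2 := h1.mul_isBigO (Asymptotics.isBigO_refl (fun i : ℕ => (1 : ℝ) / (i + 1)) atTop)
    refine h2.congr ?_ ?_
    · intro i; ring
    · intro i; ring
  have hs := ho.sum_range (fun i => by positivity) hg
  have := hs.def hε
  filter_upwards [this, eventually_ge_atTop 1] with n hn hn1
  have h3 : ‖∑ i ∈ Finset.range n, (1 : ℝ) / ((i : ℝ) + 1)‖ ≤ 1 + Real.log n := by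
    rw [Real.norm_of_nonneg (Finset.sum_nonneg fun i _ => by positivity)]
    have := harmonic_le_one_add_log n
    rw [harmonic] at this
    push_cast at this
    simpa using this
  calc ∑ i ∈ Finset.range n, u (i + 1) / ((i : ℝ) + 1)
      ≤ ‖∑ i ∈ Finset.range n, u (i + 1) / ((i : ℝ) + 1)‖ := Real.le_norm_self _
    _ ≤ ε * ‖∑ i ∈ Finset.range n, (1 : ℝ) / ((i : ℝ) + 1)‖ := hn
    _ ≤ ε * (1 + Real.log n) := by gcongr

theorem ode : Pool.Agent.Helper712_LP.S_ode := by
  intro a b c hab hc θ θ' hder hpos hnn hle1 hanti hmono hineq hlim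
  -- partial sums
  set S : ℕ → ℝ → ℝ := fun n y => ∑ m ∈ Finset.range n, θ m y with hSdef
  have hSpos : ∀ n, 1 ≤ n → ∀ y ∈ Icc a b, 0 < S n y := by
    intro n hn y hy
    have : θ 0 y ≤ S n y :=
      Finset.single_le_sum (f := fun m => θ m y) (fun i _ => hnn i y hy)
        (Finset.mem_range.2 (by omega))
    exact lt_of_lt_of_le (hpos y hy) this
  have hSmono : ∀ n, MonotoneOn (S n) (Icc a b) := by
    intro n y hy z hz hyz
    exact Finset.sum_le_sum fun m _ => hmono m hy hz hyz
  have hSn : ∀ n y, y ∈ Icc a b → S n y ≤ S (n + 1) y := by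
    intro n y hy
    simp only [hSdef, Finset.sum_range_succ]
    linarith [hnn n y hy]
  -- Step 1: growth of S at every point left of b
  have step1 : ∀ x ∈ Ico a b, ∀ᶠ n : ℕ in atTop, S n x ≤ Real.sqrt n := by
    intro x hx
    have hxb : x < b := hx.2
    have hxI : x ∈ Icc a b := ⟨hx.1, hx.2.le⟩
    have hbI : b ∈ Icc a b := ⟨hab.le, le_rfl⟩
    -- A_n
    have key : ∀ n : ℕ, c * Real.log (S (n + 1) x) * (b - x) ≤
        ∑ i ∈ Finset.range n, θ (i + 1) b / (i + 1) := by
      intro n
      have hsub : Icc x b ⊆ Icc a b := Icc_subset_Icc hx.1 le_rfl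
      have h := mvi (f := fun y => ∑ i ∈ Finset.range n, θ (i + 1) y / ((i : ℝ) + 1))
        (f' := fun y => ∑ i ∈ Finset.range n, θ' (i + 1) y / ((i : ℝ) + 1))
        (D := c * Real.log (S (n + 1) x)) hxb.le ?_ ?_
      · have h0 : 0 ≤ ∑ i ∈ Finset.range n, θ (i + 1) x / ((i : ℝ) + 1) :=
          Finset.sum_nonneg fun i _ => div_nonneg (hnn _ _ hxI) (by positivity)
        linarith
      · intro y hy
        exact HasDerivAt.fun_sum fun i _ => (hder (i + 1) y (hsub hy)).div_const _
      · intro y hy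
        have hyI := hsub hy
        have h1 : ∀ i : ℕ, c * (Real.log (S (i + 2) y) - Real.log (S (i + 1) y)) ≤
            θ' (i + 1) y / ((i : ℝ) + 1) := by
          intro i
          have h2 := hineq (i + 1) (by omega) y hyI
          have hSi := hSpos (i + 1) (by omega) y hyI
          have h3 := log_step hSi (hnn (i + 1) y hyI)
          have h4 : S (i + 2) y = S (i + 1) y + θ (i + 1) y := by
            simp only [hSdef]; rw [Finset.sum_range_succ]
          rw [h4, le_div_iff₀ (by positivity)]
          have h5 : c * (θ (i + 1) y / S (i + 1) y) * ((i : ℝ) + 1) ≤ θ' (i + 1) y := by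
            have : c * (θ (i + 1) y / S (i + 1) y) * ((i : ℝ) + 1) =
              c * ((i + 1 : ℕ) : ℝ) / (S (i + 1) y) * θ (i + 1) y := by
              push_cast; ring
            rw [this]; exact h2
          refine le_trans ?_ h5
          gcongr
        have h6 : ∑ i ∈ Finset.range n, c * (Real.log (S (i + 2) y) - Real.log (S (i + 1) y)) =
            c * (Real.log (S (n + 1) y) - Real.log (S 1 y)) := by
          rw [← Finset.mul_sum]
          congr 1
          exact Finset.sum_range_sub (fun i => Real.log (S (i + 1) y)) n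
        have h7 : Real.log (S 1 y) ≤ 0 := by
          apply Real.log_nonpos
          · exact (hSpos 1 le_rfl y hyI).le
          · simp only [hSdef, Finset.sum_range_one]; exact hle1 0 y hyI
        have h8 : Real.log (S (n + 1) x) ≤ Real.log (S (n + 1) y) :=
          Real.log_le_log (hSpos (n + 1) (by omega) x hxI) (hSmono (n + 1) hxI hyI hy.1)
        calc c * Real.log (S (n + 1) x) ≤ c * (Real.log (S (n + 1) y) - Real.log (S 1 y)) := by
              gcongr; linarith
          _ = ∑ i ∈ Finset.range n, c * (Real.log (S (i + 2) y) - Real.log (S (i + 1) y)) := h6.symm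
          _ ≤ _ := Finset.sum_le_sum fun i _ => h1 i
    have hε : 0 < c * (b - x) / 4 := by
      have : 0 < b - x := by linarith
      positivity
    have hces := cesaro hlim hε
    have hlog : ∀ᶠ n : ℕ in atTop, (1 : ℝ) ≤ Real.log n :=
      (Real.tendsto_log_atTop.comp tendsto_natCast_atTop_atTop).eventually_ge_atTop 1
    filter_upwards [hces, hlog, eventually_ge_atTop 1] with n hn hl hn1
    have h1 := key n
    have hbx : 0 < c * (b - x) := by
      have : 0 < b - x := by linarith
      positivity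
    have h2 : Real.log (S (n + 1) x) ≤ (1 / 4) * (1 + Real.log n) := by
      have h3 : c * (b - x) * Real.log (S (n + 1) x) ≤ c * (b - x) * ((1 / 4) * (1 + Real.log n)) := by
        calc c * (b - x) * Real.log (S (n + 1) x) = c * Real.log (S (n + 1) x) * (b - x) := by ring
          _ ≤ _ := h1
          _ ≤ _ := hn
          _ = _ := by ring
      exact le_of_mul_le_mul_left h3 hbx
    have h3 : Real.log (S (n + 1) x) ≤ (1 / 2) * Real.log n := by linarith
    have hnpos : (0 : ℝ) < n := by exact_mod_cast hn1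
    have h4 : Real.log (S (n + 1) x) ≤ Real.log (Real.sqrt n) := by
      rw [Real.log_sqrt hnpos.le]; linarith
    have h5 := (Real.log_le_log_iff (hSpos (n + 1) (by omega) x hxI) (Real.sqrt_pos.2 hnpos)).1 h4
    exact (hSn n x hxI).trans h5
  -- Step 2: S is bounded at every point left of b
  have step2 : ∀ x ∈ Ico a b, ∃ M : ℝ, 0 < M ∧ ∀ n, S n x ≤ M := by
    intro x hx
    set z := (x + b) / 2 with hz
    have hxz : x < z := by rw [hz]; linarith [hx.2]
    have hzb : z < b := by rw [hz]; linarith [hx.2]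
    have hzI : z ∈ Ico a b := ⟨hx.1.trans hxz.le, hzb⟩
    have hsub : Icc x z ⊆ Icc a b := Icc_subset_Icc hx.1 hzb.le
    obtain ⟨n0, hn0⟩ := eventually_atTop.1 ((step1 z hzI).and (eventually_ge_atTop 1))
    set κ := c * (z - x) with hκ
    have hκpos : 0 < κ := by
      have : 0 < z - x := by linarith
      positivity
    have hbd : ∀ n, n0 ≤ n → θ n x ≤ 24 / κ ^ 4 * (1 / (n : ℝ) ^ 2) := by
      intro n hn
      obtain ⟨hS, hn1⟩ := hn0 n hn
      have hnpos : (0 : ℝ) < n := by exact_mod_cast hn1
      have hg := gron (f := θ n) (f' := θ' n) (K := c * Real.sqrt n) hxz.le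
        (fun y hy => hder n y (hsub hy)) ?_
      · have h1 : θ n x ≤ Real.exp (-(κ * Real.sqrt n)) := by
          calc θ n x ≤ θ n z * Real.exp (-(c * Real.sqrt n * (z - x))) := hg
            _ ≤ 1 * Real.exp (-(c * Real.sqrt n * (z - x))) := by
                gcongr; exact hle1 n z ⟨hzI.1, hzI.2.le⟩
            _ = Real.exp (-(κ * Real.sqrt n)) := by rw [hκ, one_mul]; ring_nf
        have h2 : (κ * Real.sqrt n) ^ 4 / (Nat.factorial 4 : ℝ) ≤ Real.exp (κ * Real.sqrt n) :=
          Real.pow_div_factorial_le_exp _ (by positivity) 4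
        have h3 : (κ * Real.sqrt n) ^ 4 = κ ^ 4 * (n : ℝ) ^ 2 := by
          rw [mul_pow]
          congr 1
          calc Real.sqrt n ^ 4 = (Real.sqrt n ^ 2) ^ 2 := by ring
            _ = (n : ℝ) ^ 2 := by rw [Real.sq_sqrt hnpos.le]
        rw [h3] at h2
        have h4 : (Nat.factorial 4 : ℝ) = 24 := by norm_num [Nat.factorial]
        rw [h4] at h2
        refine h1.trans ?_
        rw [Real.exp_neg]
        have h5 : (0 : ℝ) < κ ^ 4 * (n : ℝ) ^ 2 / 24 := by positivity
        calc (Real.exp (κ * Real.sqrt n))⁻¹ ≤ (κ ^ 4 * (n : ℝ) ^ 2 / 24)⁻¹ :=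
              inv_anti₀ h5 h2
          _ = 24 / κ ^ 4 * (1 / (n : ℝ) ^ 2) := by field_simp
      · intro y hy
        have hyI := hsub hy
        refine le_trans ?_ (hineq n hn1 y hyI)
        refine mul_le_mul_of_nonneg_right ?_ (hnn n y hyI)
        have hSy : S n y ≤ Real.sqrt n :=
          (hSmono n hyI ⟨hzI.1, hzI.2.le⟩ hy.2).trans hS
        have hSyp := hSpos n hn1 y hyI
        rw [mul_div_assoc]
        refine mul_le_mul_of_nonneg_left ?_ hc.le
        rw [le_div_iff₀ hSyp]
        calc Real.sqrt n * S n y ≤ Real.sqrt n * Real.sqrt n := by gcongr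
          _ = n := Real.mul_self_sqrt hnpos.le
    have hsum : Summable (fun n : ℕ => 24 / κ ^ 4 * (1 / (n : ℝ) ^ 2)) :=
      (Real.summable_one_div_nat_pow.2 (by norm_num)).mul_left _
    set M := (n0 : ℝ) + 1 + ∑' n : ℕ, 24 / κ ^ 4 * (1 / (n : ℝ) ^ 2) with hM
    have hts : 0 ≤ ∑' n : ℕ, 24 / κ ^ 4 * (1 / (n : ℝ) ^ 2) := tsum_nonneg fun n => by positivity
    have hxI : x ∈ Icc a b := ⟨hx.1, hx.2.le⟩
    refine ⟨M, by positivity, fun n => ?_⟩
    have h1 : ∀ m, θ m x ≤ (if m < n0 then 1 else 0) + 24 / κ ^ 4 * (1 / (m : ℝ) ^ 2) := by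
      intro m
      split_ifs with h
      · have : 0 ≤ 24 / κ ^ 4 * (1 / (m : ℝ) ^ 2) := by positivity
        linarith [hle1 m x hxI]
      · have := hbd m (by omega)
        linarith
    calc S n x ≤ ∑ m ∈ Finset.range n, ((if m < n0 then (1 : ℝ) else 0) + 24 / κ ^ 4 * (1 / (m : ℝ) ^ 2)) :=
          Finset.sum_le_sum fun m _ => h1 m
      _ = ∑ m ∈ Finset.range n, (if m < n0 then (1 : ℝ) else 0) +
          ∑ m ∈ Finset.range n, 24 / κ ^ 4 * (1 / (m : ℝ) ^ 2) := Finset.sum_add_distrib
      _ ≤ (n0 : ℝ) + ∑' n : ℕ, 24 / κ ^ 4 * (1 / (n : ℝ) ^ 2) := by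
          refine add_le_add ?_ (hsum.sum_le_tsum _ fun i _ => by positivity)
          rw [← Finset.sum_filter]
          simp only [Finset.sum_const, nsmul_eq_mul, mul_one]
          have : (Finset.filter (fun m => m < n0) (Finset.range n)).card ≤ (Finset.range n0).card :=
            Finset.card_le_card fun m hm => by
              simp only [Finset.mem_filter] at hm
              exact Finset.mem_range.2 hm.2
          rw [Finset.card_range] at this
          exact_mod_cast this
      _ ≤ M := by rw [hM]; linarith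
  -- Step 3
  intro x hx
  set z := (x + b) / 2 with hz
  have hxz : x < z := by rw [hz]; linarith [hx.2]
  have hzb : z < b := by rw [hz]; linarith [hx.2]
  have hzI : z ∈ Ico a b := ⟨hx.1.trans hxz.le, hzb⟩
  have hsub : Icc x z ⊆ Icc a b := Icc_subset_Icc hx.1 hzb.le
  obtain ⟨M, hMpos, hM⟩ := step2 z hzI
  have hzx : 0 < z - x := by linarith
  refine ⟨1, c / M * (z - x), by positivity, fun n => ?_⟩
  rcases Nat.eq_zero_or_pos n with rfl | hn1
  · simpa using hle1 0 x ⟨hx.1, hx.2.le⟩
  have hg := gron (f := θ n) (f' := θ' n) (K := c * n / M) hxz.le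
    (fun y hy => hder n y (hsub hy)) ?_
  · calc θ n x ≤ θ n z * Real.exp (-(c * n / M * (z - x))) := hg
      _ ≤ 1 * Real.exp (-(c * n / M * (z - x))) := by
          gcongr; exact hle1 n z ⟨hzI.1, hzI.2.le⟩
      _ = 1 * Real.exp (-(c / M * (z - x)) * n) := by ring_nf
  · intro y hy
    have hyI := hsub hy
    refine le_trans ?_ (hineq n hn1 y hyI)
    refine mul_le_mul_of_nonneg_right ?_ (hnn n y hyI)
    have hSy : S n y ≤ M := (hSmono n hyI ⟨hzI.1, hzI.2.le⟩ hy.2).trans (hM n)
    have hSyp := hSpos n hn1 y hyI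
    have hnpos : (0 : ℝ) < n := by exact_mod_cast hn1
    exact div_le_div_of_nonneg_left (by positivity) hSyp hSy

end Pool.Agent.Helper209_LP
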