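import Pool.Agent.Helper712_LP.Stmts

/-!
# Scaling of Poisson processes
-/

set_option autoImplicit false

namespace Pool.Agent.Helper209_LP

open MeasureTheory ProbabilityTheory Set Filter Topology
open scoped ENNReal NNReal

open Pool.Agent.Helper712_LP

theorem count_smul {d : ℕ} {Ω : Type} (x : ℕ → Ω → E d) (a : ℝ≥0) (A : Set (E d)) :
    count (fun i ω => (a : ℝ) • x i ω) A = count x ((fun z : E d => (a : ℝ) • z) ⁻¹' A) := by
  funext ω
  unfold count
  congr 1

theorem vol_preimage {d : ℕ} {a : ℝ≥0} (ha : 0 < a) (A : Set (E d)) :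
    volume ((fun z : E d => (a : ℝ) • z) ⁻¹' A) = ((a ^ d)⁻¹ : ℝ≥0) * volume A := by
  have ha' : (a : ℝ) ≠ 0 := by exact_mod_cast ha.ne'
  have h := Measure.addHaar_preimage_smul (volume : Measure (E d)) ha' A
  rw [h]
  congr 1
  have h2 : Module.finrank ℝ (E d) = d := by simp
  rw [h2]
  have h3 : |((a : ℝ) ^ d)⁻¹| = (((a ^ d)⁻¹ : ℝ≥0) : ℝ) := by
    rw [abs_of_nonneg (by positivity)]
    push_cast
    rfl
  rw [h3, ENNReal.ofReal_coe_nnreal]

theorem scale : S_scale := by
  intro d Ω _ P lam x hx a ha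
  have hmeas : Measurable (fun z : E d => (a : ℝ) • z) := measurable_const_smul _
  have had : a ^ d ≠ 0 := (pow_pos ha d).ne'
  refine ⟨fun i => hmeas.comp (hx.measurable i), ?_, ?_⟩
  · intro A hA hvol
    have hv := vol_preimage ha A
    have hvol' : volume ((fun z : E d => (a : ℝ) • z) ⁻¹' A) ≠ ∞ := by
      rw [hv]; exact ENNReal.mul_ne_top ENNReal.coe_ne_top hvol
    rw [count_smul, hx.law _ (hmeas hA) hvol', hv]
    congr 2
    rw [ENNReal.toNNReal_mul, ENNReal.toNNReal_coe]
    rw [div_eq_mul_inv, mul_assoc]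
  · intro ι _ A hA hvol hdisj
    have := hx.indep ι (fun i => (fun z : E d => (a : ℝ) • z) ⁻¹' (A i))
      (fun i => hmeas (hA i))
      (fun i => by rw [vol_preimage ha]; exact ENNReal.mul_ne_top ENNReal.coe_ne_top (hvol i))
      (fun i j hij => (hdisj hij).preimage _)
    simpa only [count_smul] using this

end Pool.Agent.Helper209_LP
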