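import Pool.Agent.Helper209_LP.Ode

/-!
# Sharpness of the vacant cells, from the differential inequality
-/

set_option autoImplicit false

namespace Pool.Agent.Helper209_LP

open MeasureTheory ProbabilityTheory Set Filter Topology
open scoped ENNReal NNReal

theorem sharp : Pool.Agent.Helper712_LP.S_basic → Pool.Agent.Helper712_LP.S_diff →
    Pool.Agent.Helper712_LP.S_sharp := by
  intro hbasic hdiff d hd K hK p p' hp hpp' hp' hlim
  obtain ⟨h01, hanti, hpos, hmono⟩ := hbasic d hd K
  obtain ⟨c, hc, θ', hder, hineq⟩ := hdiff d hd K hK p p' hp hpp' hp'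
  have hsub : Icc p p' ⊆ Icc (0 : ℝ) 1 := Icc_subset_Icc hp.le hp'.le
  exact ode p p' c hpp' hc (Pool.Agent.Helper712_LP.theta d K) θ' hder
    (fun x hx => hpos x (hp.trans_le hx.1) (hsub hx).2) (fun n x _ => (h01 n x).1)
    (fun n x _ => (h01 n x).2) (fun n x _ => hanti n x)
    (fun n => (hmono n).mono hsub) hineq hlim p ⟨le_rfl, hpp'⟩

end Pool.Agent.Helper209_LP
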