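import Pool.Agent.Helper712_LP.Stmts

/-!
# Brownian motion stays near the origin for a short time
-/

set_option autoImplicit false

namespace Pool.Agent.Helper209_LP

open MeasureTheory ProbabilityTheory Set Filter Topology
open scoped ENNReal NNReal

open Pool.Agent.Helper712_LP

theorem tube_zero {d : ℕ} {η : ℝ} {δ : ℝ≥0} {w : ℝ≥0 → E d} :
    Tube η δ 0 w ↔ ∀ q : ℚ≥0, q ≤ 1 → ‖w (δ * (q : ℝ≥0))‖ ≤ η := by
  unfold Tube
  simp only [smul_zero, add_zero]

theorem measurableSet_tube {d : ℕ} {Ω : Type} [MeasurableSpace Ω] (η : ℝ) (δ : ℝ≥0) (v : E d)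
    {w : ℝ≥0 → Ω → E d} (hw : ∀ t, Measurable (w t)) :
    MeasurableSet {ω | Tube η δ v (fun u => w u ω)} := by
  have : {ω | Tube η δ v (fun u => w u ω)} =
      ⋂ (q : ℚ≥0) (_ : q ≤ 1), {ω | ‖w (δ * (q : ℝ≥0)) ω + ((q : ℝ≥0) : ℝ) • v‖ ≤ η} := by
    ext ω
    simp [Tube]
  rw [this]
  refine MeasurableSet.iInter fun q => MeasurableSet.iInter fun _ => ?_
  exact measurableSet_le ((hw _).add_const _).norm measurable_const

theorem motions_cont {d : ℕ} {Ω : Type} [MeasurableSpace Ω] {P : Measure Ω}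
    {Z : ℕ → ℝ≥0 → Ω → E d} (hZ : Motions P Z) (i : ℕ) :
    ∀ᵐ ω ∂P, Continuous (fun t => Z i t ω) ∧ Z i 0 ω = 0 := by
  have h1 : ∀ᵐ ω ∂P, ∀ j : Fin d, Continuous (fun t => Z i t ω j) ∧ Z i 0 ω j = 0 := by
    rw [ae_all_iff]
    intro j
    filter_upwards [(hZ.brownian i j).cont,
      (hZ.brownian i j).toIsPreBrownianReal.eval_zero_ae_eq_zero] with ω h1 h2
    exact ⟨h1, h2⟩
  filter_upwards [h1] with ω h
  constructor
  · have h2 : Continuous (fun t => (fun j => Z i t ω j)) := continuous_pi fun j => (h j).1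
    exact (PiLp.continuous_toLp 2 (fun _ : Fin d => ℝ)).comp h2
  · ext j
    exact (h j).2

theorem short : S_short := by
  intro d Ω _ P _ Z hZ η hη κ hκ
  set D : ℕ → ℝ≥0 := fun n => 1 / ((n : ℝ≥0) + 1) with hD
  set Ev : ℕ → Set Ω := fun n => {ω | Tube η (D n) 0 (fun u => Z 0 u ω)} with hEv
  have hmono : Monotone Ev := by
    intro n m hnm ω hω
    simp only [hEv, mem_ofPred_eq, tube_zero] at hω ⊢
    intro q hq
    have hq' : q * ((n : ℚ≥0) + 1) / ((m : ℚ≥0) + 1) ≤ 1 := by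
      rw [div_le_one (by positivity)]
      calc q * ((n : ℚ≥0) + 1) ≤ 1 * ((n : ℚ≥0) + 1) := by gcongr
        _ ≤ (m : ℚ≥0) + 1 := by rw [one_mul]; gcongr
    have := hω _ hq'
    have e : D n * ((q * ((n : ℚ≥0) + 1) / ((m : ℚ≥0) + 1) : ℚ≥0) : ℝ≥0) = D m * (q : ℝ≥0) := by
      simp only [hD]
      push_cast
      field_simp
    rwa [e] at this
  have hun : ∀ᵐ ω ∂P, ω ∈ ⋃ n, Ev n := by
    filter_upwards [motions_cont hZ 0] with ω hω
    obtain ⟨hc, h0⟩ := hω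
    have ht : Tendsto (fun t => ‖Z 0 t ω‖) (𝓝 0) (𝓝 0) := by
      have := (hc.norm).tendsto 0
      simpa [h0] using this
    have hev : ∀ᶠ t in 𝓝 (0 : ℝ≥0), ‖Z 0 t ω‖ ≤ η := by
      filter_upwards [ht.eventually (gt_mem_nhds hη)] with t ht
      exact ht.le
    obtain ⟨ε, hε, hball⟩ := Metric.eventually_nhds_iff.1 hev
    obtain ⟨n, hn⟩ := exists_nat_one_div_lt hε
    refine mem_iUnion.2 ⟨n, ?_⟩
    simp only [hEv, mem_ofPred_eq, tube_zero]
    intro q hq
    apply hball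
    rw [NNReal.dist_eq]
    simp only [NNReal.coe_mul, NNReal.coe_zero, sub_zero]
    rw [abs_of_nonneg (by positivity)]
    have hq1 : ((q : ℝ≥0) : ℝ) ≤ 1 := by exact_mod_cast hq
    calc ((D n : ℝ≥0) : ℝ) * ((q : ℝ≥0) : ℝ) ≤ ((D n : ℝ≥0) : ℝ) * 1 := by gcongr
      _ = 1 / ((n : ℝ) + 1) := by simp [hD]
      _ < ε := hn
  have hP : P (⋃ n, Ev n) = 1 := by
    rw [← prob_compl_eq_zero_iff₀]
    · exact hun
    · exact (MeasurableSet.iUnion fun n =>
        measurableSet_tube η (D n) 0 (hZ.measurable 0)).nullMeasurableSet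
  have hlim := tendsto_measure_iUnion_atTop (μ := P) hmono
  rw [hP] at hlim
  have hlim' : Tendsto (fun n => (P (Ev n)).toReal) atTop (𝓝 1) := by
    have := (ENNReal.tendsto_toReal ENNReal.one_ne_top).comp hlim
    rw [ENNReal.toReal_one] at this
    exact this
  obtain ⟨n, hn⟩ := (hlim'.eventually (lt_mem_nhds hκ)).exists
  refine ⟨D n, ?_, hn.le⟩
  simp only [hD]
  positivity

end Pool.Agent.Helper209_LP
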