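import Pool.Agent.Helper209_LP.Short

/-!
# Brownian motion follows a straight line with positive probability
-/

set_option autoImplicit false

namespace Pool.Agent.Helper209_LP

open MeasureTheory ProbabilityTheory Set Filter Topology
open scoped ENNReal NNReal

open Pool.Agent.Helper712_LP

/-- Lower bound for the Gaussian measure of an interval of radius `r`. -/
theorem gauss_interval {δ : ℝ≥0} (hδ : 0 < δ) {r : ℝ} (hr : 0 < r) (v : ℝ) :
    ENNReal.ofReal (2 * r * (√(2 * Real.pi * δ))⁻¹ * Real.exp (-(r ^ 2 / δ)) *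
      Real.exp (-(v ^ 2 / δ))) ≤ gaussianReal 0 δ {x | |x + v| ≤ r} := by
  have hset : {x : ℝ | |x + v| ≤ r} = Icc (-v - r) (-v + r) := by
    ext x
    simp only [mem_ofPred_eq, abs_le, mem_Icc]
    constructor <;> rintro ⟨h1, h2⟩ <;> constructor <;> linarith
  have hδ' : (0 : ℝ) < δ := by exact_mod_cast hδ
  rw [hset, gaussianReal_apply 0 hδ.ne']
  set k := (√(2 * Real.pi * δ))⁻¹ * Real.exp (-(r ^ 2 / δ)) * Real.exp (-(v ^ 2 / δ)) with hk
  have hkpos : 0 ≤ k := by positivity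
  have h1 : ∀ x ∈ Icc (-v - r) (-v + r), ENNReal.ofReal k ≤ gaussianPDF 0 δ x := by
    intro x hx
    rw [gaussianPDF]
    apply ENNReal.ofReal_le_ofReal
    rw [gaussianPDFReal, hk, mul_assoc, ← Real.exp_add]
    refine mul_le_mul_of_nonneg_left ?_ (by positivity)
    apply Real.exp_le_exp.2
    have hx2 : x ^ 2 ≤ 2 * v ^ 2 + 2 * r ^ 2 := by
      have h3 : (x + v) ^ 2 ≤ r ^ 2 := by
        apply sq_le_sq'
        · linarith [hx.1]
        · linarith [hx.2]
      nlinarith [sq_nonneg (x + v + v)]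
    rw [sub_zero]
    have h4 : -(r ^ 2 / (δ : ℝ)) + -(v ^ 2 / δ) = -(2 * v ^ 2 + 2 * r ^ 2) / (2 * δ) := by
      field_simp
      ring
    rw [h4, neg_div, neg_div]
    apply neg_le_neg
    gcongr
  calc ENNReal.ofReal (2 * r * (√(2 * Real.pi * δ))⁻¹ * Real.exp (-(r ^ 2 / δ)) *
      Real.exp (-(v ^ 2 / δ))) = ENNReal.ofReal (k * (2 * r)) := by rw [hk]; ring_nf
    _ = ENNReal.ofReal k * volume (Icc (-v - r) (-v + r)) := by
        rw [Real.volume_Icc, ENNReal.ofReal_mul hkpos]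
        congr 2
        ring
    _ = ∫⁻ _ in Icc (-v - r) (-v + r), ENNReal.ofReal k := by
        rw [setLIntegral_const]
    _ ≤ ∫⁻ x in Icc (-v - r) (-v + r), gaussianPDF 0 δ x :=
        setLIntegral_mono' measurableSet_Icc h1

/-- A Euclidean vector with small coordinates is small. -/
theorem norm_le_of_coord {d : ℕ} {x : E d} {η : ℝ} (hη : 0 < η)
    (h : ∀ j, |x j| ≤ η / (d + 1)) : ‖x‖ ≤ η := by
  have h1 : ‖x‖ ^ 2 ≤ η ^ 2 := by
    rw [EuclideanSpace.norm_sq_eq]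
    calc ∑ i, ‖x i‖ ^ 2 ≤ ∑ _i : Fin d, (η / (d + 1)) ^ 2 := by
          refine Finset.sum_le_sum fun i _ => ?_
          rw [Real.norm_eq_abs]
          exact pow_le_pow_left₀ (abs_nonneg _) (h i) 2
      _ = d * (η / (d + 1)) ^ 2 := by simp
      _ ≤ ((d : ℝ) + 1) ^ 2 * (η / (d + 1)) ^ 2 := by
          have : (d : ℝ) ≤ ((d : ℝ) + 1) ^ 2 := by nlinarith [Nat.cast_nonneg (α := ℝ) d]
          gcongr
      _ = η ^ 2 := by field_simp
  exact le_of_sq_le_sq h1 hη.le

/-- The bridge and the end point, for one coordinate, indexed by a bit. -/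
noncomputable def brEnd {d : ℕ} {Ω : Type} (Z : ℕ → ℝ≥0 → Ω → E d) (δ : ℝ≥0) (j : Fin d)
    (b : Bool) (ω : Ω) (q : {q : ℚ≥0 // q ≤ 1}) : ℝ :=
  if b then Z 0 δ ω j else Z 0 (δ * (q.1 : ℝ≥0)) ω j - ((q.1 : ℝ≥0) : ℝ) * Z 0 δ ω j

theorem measurable_brEnd {d : ℕ} {Ω : Type} [MeasurableSpace Ω] {Z : ℕ → ℝ≥0 → Ω → E d}
    (hZ : ∀ i t, Measurable (Z i t)) (δ : ℝ≥0) (j : Fin d) (b : Bool) :
    Measurable (brEnd Z δ j b) := by
  have h : ∀ t, Measurable (fun ω => Z 0 t ω j) := fun t =>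
    (measurable_pi_apply j).comp ((WithLp.measurable_ofLp 2 (Fin d → ℝ)).comp (hZ 0 t))
  refine measurable_pi_lambda _ fun q => ?_
  unfold brEnd
  cases b
  · simp only [Bool.false_eq_true, if_false]
    exact (h _).sub ((h δ).const_mul _)
  · simp only [if_true]
    exact h δ

/-- Two independent random variables, indexed by a bit. -/
theorem iIndepFun_bool {Ω S : Type} [MeasurableSpace Ω] [MeasurableSpace S] {P : Measure Ω}
    [IsProbabilityMeasure P] {f : Bool → Ω → S} (h : IndepFun (f false) (f true) P) :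
    iIndepFun f P := by
  rw [iIndepFun_iff_measure_inter_preimage_eq_mul]
  intro T sets hsets
  have hT : ∀ T : Finset Bool, T = ∅ ∨ T = {false} ∨ T = {true} ∨ T = {false, true} := by decide
  rcases hT T with rfl | rfl | rfl | rfl
  · simp
  · simp
  · simp
  · have h1 := hsets false (by simp)
    have h2 := hsets true (by simp)
    have h3 := h.measure_inter_preimage_eq_mul _ _ h1 h2
    rw [Finset.prod_pair (by decide), ← h3]
    congr 1
    ext ω
    simp

theorem indep_brEnd_one {d : ℕ} {Ω : Type} [MeasurableSpace Ω] {P : Measure Ω}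
    [IsProbabilityMeasure P] {Z : ℕ → ℝ≥0 → Ω → E d} (hZ : Motions P Z) (δ : ℝ≥0) (j : Fin d) :
    iIndepFun (brEnd Z δ j) P := by
  have hB := (hZ.brownian 0 j).toIsPreBrownianReal
  have hG := hB.isGaussianProcess
  have hmeas : ∀ t, Measurable (fun ω => Z 0 t ω j) := fun t =>
    (measurable_pi_apply j).comp
      ((WithLp.measurable_ofLp 2 (Fin d → ℝ)).comp (hZ.measurable 0 t))
  have key : IndepFun (fun ω (q : {q : ℚ≥0 // q ≤ 1}) =>
      Z 0 (δ * (q.1 : ℝ≥0)) ω j - ((q.1 : ℝ≥0) : ℝ) * Z 0 δ ω j)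
      (fun ω (_ : {q : ℚ≥0 // q ≤ 1}) => Z 0 δ ω j) P := by
    apply IsGaussianProcess.indepFun_of_covariance_eq_zero
      (X := fun (q : {q : ℚ≥0 // q ≤ 1}) ω =>
        Z 0 (δ * (q.1 : ℝ≥0)) ω j - ((q.1 : ℝ≥0) : ℝ) * Z 0 δ ω j)
      (Y := fun (_ : {q : ℚ≥0 // q ≤ 1}) ω => Z 0 δ ω j)
    · apply hG.of_isGaussianProcess
      rintro (q | q)
      · exact ⟨{δ, δ * (q.1 : ℝ≥0)},
          { toFun x := x ⟨δ * (q.1 : ℝ≥0), by simp⟩ - ((q.1 : ℝ≥0) : ℝ) * x ⟨δ, by simp⟩
            map_add' x y := by simp; ring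
            map_smul' c x := by simp; ring }, by simp⟩
      · exact ⟨{δ},
          { toFun x := x ⟨δ, by simp⟩
            map_add' x y := by simp
            map_smul' c x := by simp }, by simp⟩
    · intro q
      exact ((hmeas _).sub ((hmeas δ).const_mul _)).aemeasurable
    · intro _
      exact (hmeas δ).aemeasurable
    · intro q _
      have h2 : ∀ t, MemLp (fun ω => Z 0 t ω j) 2 P := fun t =>
        (hG.hasGaussianLaw_eval t).memLp_two
      rw [covariance_fun_sub_left (h2 _) ((h2 δ).const_mul _) (h2 δ),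
        covariance_const_mul_left]
      rw [hB.covariance_fun_eval, hB.covariance_fun_eval]
      have hq : δ * (q.1 : ℝ≥0) ≤ δ := by
        have : (q.1 : ℝ≥0) ≤ 1 := by exact_mod_cast q.2
        calc δ * (q.1 : ℝ≥0) ≤ δ * 1 := by gcongr
          _ = δ := mul_one _
      rw [min_eq_left hq, min_self]
      push_cast
      ring
  exact iIndepFun_bool key

theorem indep_brEnd {d : ℕ} {Ω : Type} [MeasurableSpace Ω] {P : Measure Ω}
    [IsProbabilityMeasure P] {Z : ℕ → ℝ≥0 → Ω → E d} (hZ : Motions P Z) (δ : ℝ≥0) :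
    iIndepFun (fun (p : Fin d × Bool) ω => brEnd Z δ p.1 p.2 ω) P := by
  apply iIndepFun_uncurry' (X := fun j b ω => brEnd Z δ j b ω)
    (fun j b => measurable_brEnd hZ.measurable δ j b)
  · have h0 : iIndepFun (fun (j : Fin d) ω (t : ℝ≥0) => Z 0 t ω j) P :=
      hZ.indep.precomp (g := fun j : Fin d => ((0 : ℕ), j)) (fun a b hab => by simpa using hab)
    let G : (ℝ≥0 → ℝ) → (Bool → {q : ℚ≥0 // q ≤ 1} → ℝ) := fun w b q =>
      if b then w δ else w (δ * (q.1 : ℝ≥0)) - ((q.1 : ℝ≥0) : ℝ) * w δ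
    have hG : Measurable G := by
      refine measurable_pi_lambda _ fun b => measurable_pi_lambda _ fun q => ?_
      cases b
      · simp only [G, Bool.false_eq_true, if_false]
        exact (measurable_pi_apply _).sub ((measurable_pi_apply _).const_mul _)
      · simp only [G, if_true]
        exact measurable_pi_apply _
    exact h0.comp (fun _ => G) (fun _ => hG)
  · intro j
    exact indep_brEnd_one hZ δ j

/-- The bridge is independent of the end point. -/
theorem indep_bridge {d : ℕ} {Ω : Type} [MeasurableSpace Ω] {P : Measure Ω}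
    [IsProbabilityMeasure P] {Z : ℕ → ℝ≥0 → Ω → E d} (hZ : Motions P Z) (δ : ℝ≥0) :
    IndepFun (fun ω (q : {q : ℚ≥0 // q ≤ 1}) =>
      Z 0 (δ * (q.1 : ℝ≥0)) ω - ((q.1 : ℝ≥0) : ℝ) • Z 0 δ ω) (fun ω => Z 0 δ ω) P := by
  classical
  have h := (indep_brEnd hZ δ).indepFun_finset
    (Finset.univ.filter fun p : Fin d × Bool => p.2 = false)
    (Finset.univ.filter fun p : Fin d × Bool => p.2 = true)
    (by
      rw [Finset.disjoint_left]
      intro p hp hp'
      simp only [Finset.mem_filter, Finset.mem_univ, true_and] at hp hp'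
      rw [hp] at hp'
      exact absurd hp' (by decide))
    (fun p => measurable_brEnd hZ.measurable δ p.1 p.2)
  let φ : ({p // p ∈ Finset.univ.filter fun p : Fin d × Bool => p.2 = false} →
      {q : ℚ≥0 // q ≤ 1} → ℝ) → ({q : ℚ≥0 // q ≤ 1} → E d) := fun x q =>
    WithLp.toLp 2 (fun j : Fin d => x ⟨(j, false), by simp⟩ q)
  let ψ : ({p // p ∈ Finset.univ.filter fun p : Fin d × Bool => p.2 = true} →
      {q : ℚ≥0 // q ≤ 1} → ℝ) → E d := fun x =>
    WithLp.toLp 2 (fun j : Fin d => x ⟨(j, true), by simp⟩ ⟨0, by simp⟩)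
  have hφ : Measurable φ := by
    refine measurable_pi_lambda _ fun q => ?_
    refine (WithLp.measurable_toLp 2 (Fin d → ℝ)).comp ?_
    refine measurable_pi_lambda _ fun j => ?_
    exact (measurable_pi_apply q).comp (measurable_pi_apply _)
  have hψ : Measurable ψ := by
    refine (WithLp.measurable_toLp 2 (Fin d → ℝ)).comp ?_
    refine measurable_pi_lambda _ fun j => ?_
    exact (measurable_pi_apply _).comp (measurable_pi_apply _)
  have h2 := h.comp hφ hψ
  convert h2 using 1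
  · funext ω q
    ext j
    simp [brEnd, φ]
  · funext ω
    ext j
    simp [brEnd, ψ]

/-- Lower bound for the probability that the end point is near `-v`. -/
theorem end_bound {d : ℕ} {Ω : Type} [MeasurableSpace Ω] {P : Measure Ω}
    [IsProbabilityMeasure P] {Z : ℕ → ℝ≥0 → Ω → E d} (hZ : Motions P Z) {δ : ℝ≥0} (hδ : 0 < δ)
    {r : ℝ} (hr : 0 < r) (v : E d) :
    ENNReal.ofReal ((2 * (r / (d + 1)) * (√(2 * Real.pi * δ))⁻¹ *
      Real.exp (-((r / (d + 1)) ^ 2 / δ))) ^ d * Real.exp (-(‖v‖ ^ 2 / δ))) ≤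
      P {ω | ‖Z 0 δ ω + v‖ ≤ r} := by
  have h0 : iIndepFun (fun (j : Fin d) ω (t : ℝ≥0) => Z 0 t ω j) P :=
    hZ.indep.precomp (g := fun j : Fin d => ((0 : ℕ), j)) (fun a b hab => by simpa using hab)
  have h1 : iIndepFun (fun (j : Fin d) ω => Z 0 δ ω j) P :=
    h0.comp (fun _ w => w δ) (fun _ => measurable_pi_apply _)
  set r' := r / (d + 1) with hr'
  have hr'pos : 0 < r' := by positivity
  have hsub : (⋂ j ∈ (Finset.univ : Finset (Fin d)), (fun ω => Z 0 δ ω j) ⁻¹' {x | |x + v j| ≤ r'}) ⊆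
      {ω | ‖Z 0 δ ω + v‖ ≤ r} := by
    intro ω hω
    simp only [Finset.mem_univ, iInter_true, mem_iInter, mem_preimage, mem_ofPred_eq] at hω ⊢
    exact norm_le_of_coord hr fun j => hω j
  have hmeas : ∀ j : Fin d, MeasurableSet {x : ℝ | |x + v j| ≤ r'} := fun j =>
    measurableSet_le (measurable_id.add_const _).abs measurable_const
  refine le_trans ?_ (measure_mono hsub)
  rw [(iIndepFun_iff_measure_inter_preimage_eq_mul.1 h1) Finset.univ (fun j _ => hmeas j)]
  set k := 2 * r' * (√(2 * Real.pi * δ))⁻¹ * Real.exp (-(r' ^ 2 / δ)) with hk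
  have hkpos : 0 ≤ k := by positivity
  have h2 : ∀ j : Fin d, ENNReal.ofReal (k * Real.exp (-(v j ^ 2 / δ))) ≤
      P ((fun ω => Z 0 δ ω j) ⁻¹' {x | |x + v j| ≤ r'}) := by
    intro j
    have hlaw := (hZ.brownian 0 j).toIsPreBrownianReal.hasLaw_eval δ
    have h3 : P ((fun ω => Z 0 δ ω j) ⁻¹' {x | |x + v j| ≤ r'}) =
        gaussianReal 0 δ {x | |x + v j| ≤ r'} := by
      rw [← hlaw.map_eq, Measure.map_apply_of_aemeasurable hlaw.aemeasurable (hmeas j)]
    rw [h3]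
    exact gauss_interval hδ hr'pos (v j)
  calc ENNReal.ofReal (k ^ d * Real.exp (-(‖v‖ ^ 2 / δ)))
      = ENNReal.ofReal (∏ j : Fin d, k * Real.exp (-(v j ^ 2 / δ))) := by
        congr 1
        rw [Finset.prod_mul_distrib, ← Real.exp_sum, Finset.prod_const, Finset.card_univ,
          Fintype.card_fin, EuclideanSpace.norm_sq_eq]
        congr 2
        rw [Finset.sum_neg_distrib, Finset.sum_div]
        simp
    _ = ∏ j : Fin d, ENNReal.ofReal (k * Real.exp (-(v j ^ 2 / δ))) := by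
        rw [ENNReal.ofReal_prod_of_nonneg]
        intro j _
        positivity
    _ ≤ _ := Finset.prod_le_prod' fun j _ => h2 j

theorem tube : S_tube := by
  intro d Ω _ P _ Z hZ η δ hη hδ hpos
  set k := (2 * (η / 2 / (d + 1)) * (√(2 * Real.pi * δ))⁻¹ *
      Real.exp (-((η / 2 / (d + 1)) ^ 2 / δ))) ^ d with hk
  set p0 := P {ω | Tube (η / 4) δ 0 (fun u => Z 0 u ω)} with hp0
  have hδ' : (0 : ℝ) < δ := by exact_mod_cast hδ
  have hkpos : 0 < k := by positivity
  have hp0top : p0 ≠ ∞ := measure_ne_top _ _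
  have hp0r : 0 < p0.toReal := ENNReal.toReal_pos hpos.ne' hp0top
  refine ⟨p0.toReal * k, (δ : ℝ)⁻¹, by positivity, by positivity, fun v => ?_⟩
  set A : Set ({q : ℚ≥0 // q ≤ 1} → E d) := {x | ∀ q, ‖x q‖ ≤ η / 2} with hA
  set B : Set (E d) := {x | ‖x + v‖ ≤ η / 2} with hB
  have hAm : MeasurableSet A := by
    have : A = ⋂ q, {x | ‖x q‖ ≤ η / 2} := by ext; simp [hA]
    rw [this]
    exact MeasurableSet.iInter fun q =>
      measurableSet_le (measurable_pi_apply q).norm measurable_const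
  have hBm : MeasurableSet B :=
    measurableSet_le (measurable_id.add_const v).norm measurable_const
  have hind := (indep_bridge hZ δ).measure_inter_preimage_eq_mul A B hAm hBm
  have hsub : ((fun ω (q : {q : ℚ≥0 // q ≤ 1}) =>
      Z 0 (δ * (q.1 : ℝ≥0)) ω - ((q.1 : ℝ≥0) : ℝ) • Z 0 δ ω) ⁻¹' A ∩ (fun ω => Z 0 δ ω) ⁻¹' B) ⊆
      {ω | Tube η δ v (fun u => Z 0 u ω)} := by
    rintro ω ⟨h1, h2⟩
    simp only [mem_preimage, hA, hB, mem_ofPred_eq] at h1 h2 ⊢
    intro q hq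
    have h3 := h1 ⟨q, hq⟩
    simp only at h3
    have hq1 : ((q : ℝ≥0) : ℝ) ≤ 1 := by exact_mod_cast hq
    have e : Z 0 (δ * (q : ℝ≥0)) ω + ((q : ℝ≥0) : ℝ) • v =
        (Z 0 (δ * (q : ℝ≥0)) ω - ((q : ℝ≥0) : ℝ) • Z 0 δ ω) +
          ((q : ℝ≥0) : ℝ) • (Z 0 δ ω + v) := by
      rw [smul_add]; abel
    rw [e]
    calc _ ≤ ‖Z 0 (δ * (q : ℝ≥0)) ω - ((q : ℝ≥0) : ℝ) • Z 0 δ ω‖ +
          ‖((q : ℝ≥0) : ℝ) • (Z 0 δ ω + v)‖ := norm_add_le _ _
      _ ≤ η / 2 + 1 * (η / 2) := by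
          rw [norm_smul, Real.norm_of_nonneg (by positivity)]
          gcongr
      _ = η := by ring
  have hbr : p0 ≤ P ((fun ω (q : {q : ℚ≥0 // q ≤ 1}) =>
      Z 0 (δ * (q.1 : ℝ≥0)) ω - ((q.1 : ℝ≥0) : ℝ) • Z 0 δ ω) ⁻¹' A) := by
    refine measure_mono fun ω hω => ?_
    simp only [mem_preimage, hA, mem_ofPred_eq] at hω ⊢
    rw [tube_zero] at hω
    rintro ⟨q, hq⟩
    have h1 := hω q hq
    have h2 := hω 1 le_rfl
    have hq1 : ((q : ℝ≥0) : ℝ) ≤ 1 := by exact_mod_cast hq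
    have e1 : δ * ((1 : ℚ≥0) : ℝ≥0) = δ := by simp
    rw [e1] at h2
    calc _ ≤ ‖Z 0 (δ * (q : ℝ≥0)) ω‖ + ‖((q : ℝ≥0) : ℝ) • Z 0 δ ω‖ := norm_sub_le _ _
      _ ≤ η / 4 + 1 * (η / 4) := by
          rw [norm_smul, Real.norm_of_nonneg (by positivity)]
          gcongr
      _ = η / 2 := by ring
  have hend := end_bound hZ hδ (half_pos hη) v
  calc ENNReal.ofReal (p0.toReal * k * Real.exp (-(δ : ℝ)⁻¹ * ‖v‖ ^ 2))
      = p0 * ENNReal.ofReal (k * Real.exp (-(‖v‖ ^ 2 / δ))) := by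
        rw [mul_assoc, ENNReal.ofReal_mul ENNReal.toReal_nonneg, ENNReal.ofReal_toReal hp0top]
        congr 4
        field_simp
    _ ≤ _ := mul_le_mul' hbr hend
    _ = _ := hind.symm
    _ ≤ _ := measure_mono hsub

end Pool.Agent.Helper209_LP
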